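import Pool.Agent.L0h5.TV.Stm
import Pool.Agent.L0h88.TU.Mom
import Pool.Agent.L0h5.TE.D15
import Pool.Agent.W605.RT.PAR4
import Pool.Agent.W29.RT.LOW4
import Pool.Agent.W261.RT.Iso

/-!
# Project TV, V7: the curves with a subgroup `Z/2 x Z/4`
-/

set_option autoImplicit false
set_option linter.unusedSectionVars false

namespace Pool.Agent.L0h55.TV

open Finset Polynomial Pool.Agent.W262.RK Pool.Agent.L0h5.TH Pool.Agent.L0h5.MR
  Pool.Agent.L0h5.TQ Pool.Agent.W307.RT Pool.Agent.L0h5.TE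
open Pool.Agent.L0h5.TF hiding oo QF
open Pool.Agent.L0h5.TU Pool.Agent.L0h5.TV

/-- the factors -/
def dd : Fin 4 → ℤ × ℤ × ℤ := ![(0, 1, 0), (0, 2, 1), (0, 1, 1), (0, 3, 1)]

/-- the constants -/
def aa : Fin 3 → ℤ := ![-1, -1, 1]

/-- the classes -/
def qq : Fin 4 → Fin 3 := ![0, 1, 2, 2]

/-- the multiplicities -/
def mm : Fin 4 → ℕ := ![2, 2, 1, 1]

/-- the nonsplit types -/
def ss : Fin 4 → Bool := ![false, false, true, true]

/-- the forms -/
noncomputable abbrev F4 (k : Fin 3) : ℤ[X] := Fk (fun j => pol (dd j)) aa (fun _ => false) qq mm k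

lemma ok4 (j : Fin 4) : okp (dd j) := by
  fin_cases j
  · exact Or.inl ⟨rfl, by norm_num [dd]⟩
  · exact Or.inl ⟨rfl, by norm_num [dd]⟩
  · exact Or.inl ⟨rfl, by norm_num [dd]⟩
  · exact Or.inl ⟨rfl, by norm_num [dd]⟩

lemma fm4 : Fm (fun j => pol (dd j)) aa := by
  refine fm_of dd aa ok4 (by decide) (by decide)

lemma F40 : F4 0 = -((pol (0, 1, 0)) ^ 2) := by
  unfold F4 Fk mu
  simp [Fin.prod_univ_succ, dd, aa, qq, mm]

lemma F41 : F4 1 = -((pol (0, 2, 1)) ^ 2) := by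
  unfold F4 Fk mu
  simp [Fin.prod_univ_succ, dd, aa, qq, mm]

lemma F42 : F4 2 = pol (0, 1, 1) * pol (0, 3, 1) := by
  unfold F4 Fk mu
  simp [Fin.prod_univ_succ, dd, aa, qq, mm]

lemma rel4 : F4 0 - F4 1 = F4 2 := by
  rw [F40, F41, F42]
  simp only [pol_eq, map_zero, map_one, map_ofNat]
  ring

lemma deg4 (k : Fin 3) : (F4 k).natDegree = 2 * 1 := by
  rw [natDegree_Fk fm4 k (fun j => dgp (dd j)) (fun j => natDegree_pol (ok4 j))]
  revert k
  decide

lemma hv40 (u v : ℤ) : hv (F4 0) (u, v - 2 * u) = -(M4 u v) := by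
  have h0 : okp (0, 1, 0) := Or.inl ⟨rfl, by norm_num⟩
  have e : F4 0 = C (-1) * ((pol (0, 1, 0)) ^ 2) := by
    rw [F40, map_neg, map_one]
    ring
  rw [e, hv_mul, hv_C, hv_pow, hv_pol h0]
  unfold M4
  simp only [if_true]
  ring

lemma hv41 (u v : ℤ) : hv (F4 1) (u, v - 2 * u) = -(N4 u v) := by
  have h0 : okp (0, 2, 1) := Or.inl ⟨rfl, by norm_num⟩
  have e : F4 1 = C (-1) * ((pol (0, 2, 1)) ^ 2) := by
    rw [F41, map_neg, map_one]
    ring
  rw [e, hv_mul, hv_C, hv_pow, hv_pol h0]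
  unfold N4
  simp only [if_true]
  ring

lemma fam4 : Fam0 (fun j => pol (dd j)) aa qq mm 1 where
  fm := fm4
  rel := rel4
  deg := deg4
  mul := by decide

lemma crit4 : CritC qq ss := by
  intro a _
  revert a
  decide

/-- a linear polynomial has exactly one root modulo a good prime -/
lemma card_rts1 {α β : ℤ} (hα : α ≠ 0) {p : ℕ} (hp : p.Prime)
    (h : ¬ (p : ℤ) ∣ (pol (0, α, β)).leadingCoeff) : (rts (pol (0, α, β)) p).card = 1 := by
  have : Fact p.Prime := ⟨hp⟩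
  have e : pol (0, α, β) = C α * X + C β := by
    rw [pol_eq]
    simp
  rw [e] at h ⊢
  have hl : (C α * X + C β : ℤ[X]).leadingCoeff = α := leadingCoeff_linear hα
  rw [hl] at h
  have hα' : (α : ZMod p) ≠ 0 := by
    intro h1
    exact h ((ZMod.intCast_zmod_eq_zero_iff_dvd α p).1 h1)
  rw [card_eq_one]
  refine ⟨(-(β : ZMod p) / α).val, ?_⟩
  ext r
  unfold rts
  rw [mem_filter, mem_range, mem_singleton]
  simp only [eval_add, eval_mul, eval_C, eval_X]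
  rw [← ZMod.intCast_zmod_eq_zero_iff_dvd]
  push_cast
  constructor
  · rintro ⟨h1, h2⟩
    have h3 : (r : ZMod p) = -(β : ZMod p) / α := by
      rw [eq_div_iff hα']
      linear_combination h2
    rw [← h3, ZMod.val_natCast_of_lt h1]
  · rintro rfl
    refine ⟨ZMod.val_lt _, ?_⟩
    rw [ZMod.natCast_zmod_val]
    field_simp
    ring

lemma sg0_sq (x : ℤ) (p : ℕ) : sg0 p (x ^ 2) = false := by
  unfold sg0
  rw [decide_eq_false_iff_not, jacobiSym.pow_left]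
  intro h
  have := sq_nonneg (jacobiSym x p)
  omega

lemma sg0_neg {x : ℤ} {p : ℕ} (hp : p.Prime) (h2 : 2 < p) (hx : ¬ (p : ℤ) ∣ x) :
    sg0 p (-(x ^ 2)) = decide (p % 4 = 3) := by
  have hodd : Odd p := hp.odd_of_ne_two (by omega)
  have h1 : jacobiSym x p ^ 2 = 1 := by
    apply jacobiSym.sq_one
    rw [Int.gcd_comm]
    exact Int.isCoprime_iff_gcd_eq_one.1
      ((Nat.prime_iff_prime_int.1 hp).coprime_iff_not_dvd.2 hx)
  have e : jacobiSym (-(x ^ 2)) p = ZMod.χ₄ p := by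
    rw [show -(x ^ 2) = -1 * x ^ 2 by ring, jacobiSym.mul_left, jacobiSym.pow_left, h1,
      mul_one, jacobiSym.at_neg_one hodd]
  unfold sg0
  rw [e]
  rcases (show p % 4 = 1 ∨ p % 4 = 3 by
    obtain ⟨m, hm⟩ := hodd
    omega) with h3 | h3
  · rw [ZMod.χ₄_nat_one_mod_four h3, h3]
    decide
  · rw [ZMod.χ₄_nat_three_mod_four h3, h3]
    decide

/-- the signs of the constants -/
lemma sg_kap {z : ℕ} (g : Gz (fun j => pol (dd j)) aa z) {p : ℕ} (hp : p.Prime) (hz : z < p)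
    (j : Fin 4) {r : ℕ} (hr : r ∈ rts (pol (dd j)) p) :
    sg0 p (kapG (fun j => pol (dd j)) aa (fun _ => false) qq mm j r 0) =
      (ss j && decide (p % 4 = 3)) := by
  have h2 : 2 < p := lt_of_le_of_lt g.two hz
  have hr' : (p : ℤ) ∣ (pol (dd j)).eval (r : ℤ) := (mem_filter.1 hr).2
  have hX : ∀ x : ℤ, (pol (0, 1, 0)).eval x = x := by
    intro x
    rw [pol_eq]
    simp
  have k0 : ∀ j : Fin 4, qq j = 0 → kapG (fun j => pol (dd j)) aa (fun _ => false) qq mm j r 0 =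
      ((pol (0, 2, 1)).eval (r : ℤ)) ^ 2 := by
    intro j hj
    unfold kapG kapQ
    rw [if_neg (by simp), if_pos hj]
    show (-(F4 1)).eval (r : ℤ) = _
    rw [F41, neg_neg, eval_pow]
  have k1 : ∀ j : Fin 4, qq j = 1 → kapG (fun j => pol (dd j)) aa (fun _ => false) qq mm j r 0 =
      ((pol (0, 1, 0)).eval (r : ℤ)) ^ 2 := by
    intro j hj
    unfold kapG kapQ
    rw [if_neg (by simp), if_neg (by rw [hj]; decide), if_pos hj]
    show (-(F4 0)).eval (r : ℤ) = _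
    rw [F40, neg_neg, eval_pow]
  have k2 : ∀ j : Fin 4, qq j = 2 → kapG (fun j => pol (dd j)) aa (fun _ => false) qq mm j r 0 =
      -(((pol (0, 1, 0)).eval (r : ℤ)) ^ 2) := by
    intro j hj
    unfold kapG kapQ
    rw [if_neg (by simp), if_neg (by rw [hj]; decide), if_neg (by rw [hj]; decide)]
    show (F4 0).eval (r : ℤ) = _
    rw [F40, eval_neg, eval_pow]
  have c2 : ∀ j : Fin 4, qq j = 2 → j ≠ 0 := by decide
  have hs : ∀ j : Fin 4, (qq j = 0 ∧ ss j = false) ∨ (qq j = 1 ∧ ss j = false) ∨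
      (qq j = 2 ∧ ss j = true) := by decide
  rcases hs j with ⟨h3, h4⟩ | ⟨h3, h4⟩ | ⟨h3, h4⟩
  · rw [k0 j h3, sg0_sq, h4, Bool.false_and]
  · rw [k1 j h3, sg0_sq, h4, Bool.false_and]
  · rw [k2 j h3, h4, Bool.true_and]
    refine sg0_neg hp h2 ?_
    exact g.cop p hp hz j 0 (c2 j h3) r hr'

open Classical in
lemma av4 (hA : S3_AVG) : AvB (fun j => pol (dd j)) aa qq mm := by
  intro k hk
  obtain ⟨δ0, h1, h2, z0, h3, h4⟩ := hA (Fin 4) qq (evG mm) ss (by decide) crit4 k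
    (∑ j, (pol (dd j)).natDegree) hk
  refine ⟨δ0, h1, h2, z0, h3, fun z hz g => h4 z hz _ _ fun p hp hzp j => ⟨?_, fun r hr => ?_⟩⟩
  · have h5 := g.lc p hp hzp j
    have h6 : ∀ j : Fin 4, dd j = (0, (dd j).2.1, (dd j).2.2) ∧ (dd j).2.1 ≠ 0 := by decide
    obtain ⟨h7, h8⟩ := h6 j
    have h9 : ¬ (p : ℤ) ∣ (pol (dd j)).leadingCoeff := h5
    rw [h7] at h9
    have h10 := card_rts1 h8 hp h9
    rw [← h7] at h10
    exact h10
  · exact sg_kap g hp hzp j hr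

/-- **V7** -/
theorem s3_f24 (hA : S3_AVG) (hK : S3_BOX) (hL : S2_ASM) : S3_F24 :=
  Pool.Agent.L0h88.TU.mom_v (by norm_num) (Pool.Agent.W605.RT.par4_of Pool.Agent.W261.RT.iso)
    Pool.Agent.W29.RT.low4
    (hK (Fin 4) (fun j => pol (dd j)) aa qq mm 1 fam4 (av4 hA) M4 N4 hv40 hv41) hL

end Pool.Agent.L0h55.TV
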