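import Pool.Agent.L0h5.TU.MainU1
import Pool.Agent.L0h5.TV.Stm

/-!
# Project TV, V6a: all moments for the pairs of a family, from the bound for the average
-/

set_option autoImplicit false
set_option linter.unusedSectionVars false

namespace Pool.Agent.L0h55.TV

open Finset Polynomial Pool.Agent.W262.RK Pool.Agent.L0h5.TH Pool.Agent.L0h5.MR
  Pool.Agent.L0h5.TQ Pool.Agent.L0h5.TE
open Pool.Agent.L0h5.TF hiding oo QF
open Pool.Agent.L0h5.TT (LL)
open Pool.Agent.L0h5.TU Pool.Agent.L0h5.TV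

open Classical in
/-- **V6a** all the moments over the typical pairs -/
theorem mainV (hGRO : S2_GRO) (hTRV : S2_TRV) (hRNK : S2_RNK)
    (hCORE : S2_CORE) : S3_MAIN := by
  intro J _ _ _ P a q m n hfam hav
  suffices H : ∀ k : ℕ, 1 ≤ k → ∃ C : ℝ, ∀ X : ℕ, 1 ≤ X →
      ∑ t ∈ (TH P X).filter (fun t => ∀ j, Typ1 (P j) X t),
      ((2 : ℝ) ^ Module.finrank ℤ (EAB (hv (Fk P a (fun _ => false) q m 0) t)
        (hv (Fk P a (fun _ => false) q m 1) t)).toAffine.Point) ^ k ≤ C * (X : ℝ) ^ 2 by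
    intro k
    rcases Nat.eq_zero_or_pos k with rfl | hk
    · obtain ⟨C, hC⟩ := H 1 le_rfl
      refine ⟨C, fun X hX => (sum_le_sum fun t _ => ?_).trans (hC X hX)⟩
      rw [pow_zero, pow_one]
      exact one_le_pow₀ (by norm_num)
    · exact H k hk
  intro k hk
  have h := hfam.fm
  obtain ⟨c, hc⟩ : ∃ c : ℕ, c = ∑ j, (P j).natDegree := ⟨_, rfl⟩
  obtain ⟨z1, hz1⟩ := h.good
  obtain ⟨z2, hz2⟩ := sv2 c (Fintype.card J)
  obtain ⟨δ0, hδ0, hδ2, z3, hz38, hz3⟩ := hav k hk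
  obtain ⟨z, hz⟩ : ∃ z : ℕ, z = z1 + z2 + z3 + 2 * c + 2 := ⟨_, rfl⟩
  have g : Gz P a z := hz1 z (by omega)
  have hcz : 2 * c + 2 ≤ z := by omega
  have hz8 : 8 ≤ z := by omega
  have hl := hl_P (a := a) (q := q) (m := m) g hc k
  -- the average
  obtain ⟨C1, hC10, hC1⟩ := hz3 z (by omega) g
  rw [← hc] at hC1
  obtain ⟨M, hM⟩ := hTRV J _ k c z _ _ _ _ hl hz8 hcz
  obtain ⟨δ1, hδ1⟩ : ∃ δ1 : ℝ, δ1 = δ0 / 3 := ⟨_, rfl⟩
  have hδ10 : 0 < δ1 := by rw [hδ1]; positivity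
  have hδ11 : δ1 < 1 := by rw [hδ1]; linarith
  have hR := hRNK J _ k c z (Fintype.card J) δ0 _ _ _ _ hl hz8 hcz hδ0 hδ2 ⟨C1, hC10, hC1⟩
  rw [← hδ1] at hR
  obtain ⟨B, CB, hB1, hCB1, hBB⟩ := Pool.Agent.L0h5.TT.typ_bd M z hδ10
  -- the counts
  have hc1 : 1 ≤ c := by
    obtain ⟨j⟩ := ‹Nonempty J›
    rw [hc]
    have h1 : 1 ≤ (P j).natDegree := by
      have h2 := (h.irr j).natDegree_pos
      rwa [natDegree_map_eq_of_injective (RingHom.injective_int _)] at h2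
    exact h1.trans (single_le_sum (f := fun j => (P j).natDegree) (fun _ _ => Nat.zero_le _)
      (mem_univ j))
  obtain ⟨C0, hC0⟩ := lowerQ h g hc (by omega)
  obtain ⟨C, K, y0, hC, hK, hsv⟩ := hz2 z (by omega) hcz C0
  obtain ⟨E, hE⟩ : ∃ E : ℕ, E = (FF P).natDegree + 1 := ⟨_, rfl⟩
  obtain ⟨M0, hM0⟩ : ∃ M0 : ℕ,
    M0 = ∑ i ∈ range ((FF P).natDegree + 1), ((FF P).coeff i).natAbs := ⟨_, rfl⟩
  have hE1 : (1 : ℝ) ≤ 4 ^ E := one_le_pow₀ (by norm_num)
  have hF0 : ∀ k, Fk P a (fun _ => false) q m k ≠ 0 := by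
    intro k h2
    unfold Fk at h2
    rcases mul_eq_zero.1 h2 with h3 | h3
    · exact h.ane k (by simpa using h3)
    · rw [prod_eq_zero_iff] at h3
      obtain ⟨l, -, hl⟩ := h3
      have h5 : P l = 0 := by
        by_contra hcon
        exact pow_ne_zero _ hcon hl
      have h6 := (h.irr l).ne_zero
      rw [h5, Polynomial.map_zero] at h6
      exact h6 rfl
  have hbd : ∀ {X : ℕ} {t : ℤ × ℤ}, M0 ≤ X → t ∈ TH P X → (hv (FF P) t).natAbs ≤ X ^ E := by
    intro X t hX ht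
    obtain ⟨⟨h1, h2⟩, h3, h4⟩ := mem_TH.1 ht
    refine (natAbs_hv (FF P) (B := X) (by omega) (by omega)).trans ?_
    rw [← hM0, hE, pow_succ, mul_comm]
    exact Nat.mul_le_mul_left _ hX
  have hmain := hCORE J (ℤ × ℤ) _ k c (Fintype.card J) M z _ _ _ _ δ1 (WU M δ1) hl hcz hδ10
    hδ11 (fun X n => WU_nonneg M δ1 X n)
    (fun lm hlm => by
      obtain ⟨Ca, hCa, h1⟩ := hR lm hlm
      obtain ⟨Cb, hCb, h2⟩ := hM lm hlm
      exact ⟨Ca + 2 * Cb, fun X y hzy hyX => avg_WU hl hGRO hz8 hcz hCa hCb h1 h2 X y hzy hyX⟩)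
    (fun X => TH P X) (fun X t => ∀ j, Typ1 (P j) X t) (fun X => (X : ℝ) ^ 2) (hv (FF P))
    (fun t p => stt P (fun _ => true) (Pool.Agent.L0h5.TQ.tp t p : ℤ) p)
    (fun t => Module.finrank ℤ (EAB (hv (Fk P a (fun _ => false) q m 0) t)
        (hv (Fk P a (fun _ => false) q m 1) t)).toAffine.Point) (4 ^ (z + 2)) (4 ^ E)
    (9 * C) CB (B ^ E) K (y0 + M0 + 3)
    (fun X Y hXY t ht => by
      rw [mem_TH] at ht ⊢
      have h1 : (X : ℤ) ≤ Y := by exact_mod_cast hXY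
      exact ⟨⟨⟨by omega, by omega⟩, by omega, by omega⟩, ht.2⟩)
    (fun X hX => one_le_pow₀ (by exact_mod_cast hX))
    (fun X t ht => (mem_TH.1 ht).2.2)
    (fun X t ht p hp hz hd _ => by
      apply stt_mem hp
      rw [FF_eq_fa]
      exact (hv_iff1 _ hp (not_dvd_b g hp hz (mem_TH.1 ht).2.1 hd)).1 hd)
    (by positivity) hE1 (by positivity) hCB1 (one_le_pow₀ hB1) hK ?_ ?_ ?_
  · obtain ⟨C2, hC2⟩ := hmain
    refine ⟨C2, fun X hX => ?_⟩
    convert hC2 X hX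
  · intro X y k' hy hzy hyX hXk t ht
    obtain ⟨⟨h1, h2⟩, h3, h4⟩ := mem_TH.1 ht
    exact rankQ h.ane g hF0 hfam.rel hfam.deg (fun j => Or.inr (hfam.mul j)) h3 h4
      (hbd (by omega) ht) (by omega) hXk
  · intro X y k' hy hzy hyX hXk t ht hty
    obtain ⟨⟨h1, h2⟩, h3, h4⟩ := mem_TH.1 ht
    have hB0 : 0 < B := by linarith
    have hlX1 : 1 ≤ Real.log X := (AT.one_le_log (z := z) (by omega) hzy).trans
      (Real.log_le_log (by exact_mod_cast (by omega : 0 < y)) (by exact_mod_cast hyX))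
    have hlX0 : 0 < Real.log X := by linarith
    obtain ⟨v, hv'⟩ : ∃ v : ℕ, v = (Pool.Agent.L0h5.TH.s2 z y (hv (FF P) t)).primeFactors.card :=
      ⟨_, rfl⟩
    obtain ⟨nn, hnn⟩ : ∃ nn : J → ℕ, nn = cnS Sigma.fst
      (fun p => stt P (fun _ => true) (Pool.Agent.L0h5.TQ.tp t p : ℤ) p)
      (Pool.Agent.L0h5.TH.s1 z y (hv (FF P) t)) := ⟨_, rfl⟩
    have hcnt : ∀ j, nn j ≤ (hv (P j) t).natAbs.primeFactors.card ∧
        (hv (P j) t).natAbs.primeFactors.card ≤ nn j + (z + E * k' + v) := by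
      intro j
      rw [hnn, hv']
      exact cnt_bdU g h3 h4 (by omega) (hbd (by omega) ht) hXk j
    show 1 ≤ CB * (B ^ E) ^ (k' + (Pool.Agent.L0h5.TH.s2 z y (hv (FF P) t)).primeFactors.card) *
      WU M δ1 X (cnS Sigma.fst
      (fun p => stt P (fun _ => true) (Pool.Agent.L0h5.TQ.tp t p : ℤ) p)
      (Pool.Agent.L0h5.TH.s1 z y (hv (FF P) t)))
    rw [← hv', ← hnn]
    have hBE : 1 ≤ (B ^ E) ^ (k' + v) := one_le_pow₀ (one_le_pow₀ hB1)
    unfold WU
    by_cases hw : WinJ δ1 (LL X) nn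
    · rw [if_pos hw]
      have h5 : 0 ≤ ((Real.log X) ^ M)⁻¹ := by positivity
      exact one_le_mul_of_one_le_of_one_le (one_le_mul_of_one_le_of_one_le hCB1 hBE)
        (by linarith)
    · rw [if_neg hw, zero_add]
      have hΛ0 : 0 ≤ LL X := Real.log_nonneg hlX1
      have h5 : Real.exp (M * LL X) ≤ CB * B ^ (E * (k' + v)) := by
        apply hBB _ _ hΛ0
        unfold WinJ at hw
        push Not at hw
        obtain ⟨j, hj⟩ := hw
        obtain ⟨c1, c2⟩ := hcnt j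
        have c3 := abs_le.1 (hty j)
        have c1' : (nn j : ℝ) ≤ ((hv (P j) t).natAbs.primeFactors.card : ℝ) := by
          exact_mod_cast c1
        have c2' : ((hv (P j) t).natAbs.primeFactors.card : ℝ) ≤ nn j + (z + E * k' + v) := by
          exact_mod_cast c2
        have hE1' : (1 : ℝ) ≤ E := by exact_mod_cast (by omega : 1 ≤ E)
        have hv0 : (0 : ℝ) ≤ v := Nat.cast_nonneg v
        have hvE : (v : ℝ) ≤ E * v := le_mul_of_one_le_left hv0 hE1'
        have hz0 : (0 : ℝ) ≤ z := Nat.cast_nonneg z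
        have hEk : (0 : ℝ) ≤ E * k' := by positivity
        push_cast
        rw [mul_add]
        by_cases h6 : (1 - δ1) * LL X ≤ nn j
        · have h7 := hj h6
          linarith [c3.1, c3.2]
        · push Not at h6
          linarith [c3.1, c3.2]
      have h6 : Real.exp (M * LL X) = (Real.log X) ^ M := by
        unfold Pool.Agent.L0h5.TT.LL
        rw [Real.exp_nat_mul, Real.exp_log hlX0]
      rw [h6, pow_mul] at h5
      rw [← div_eq_mul_inv, le_div_iff₀ (by positivity), one_mul]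
      exact h5
  · intro X y Y k' hy hzy hyX hXk s v u hs hv' hu hsvu hcop T' hT' hT hst
    have hyX1 : y ≤ X := le_trans (Nat.le_self_pow (by omega) y) hyX
    obtain ⟨X', hX'⟩ : ∃ X' : ℕ, X' = 2 * X + 1 := ⟨_, rfl⟩
    have hsq : SvQ2 (QH P) z y X' c (Fintype.card J) (-(X : ℤ) - 1) (-(X : ℤ) - 1) C := by
      intro r1 r2 mm hm1 hm4 T'' hT''
      refine hsv X' y (by omega) hzy (hyX.trans (by omega)) _ _ r1 r2 mm hm1 hm4 (QH P)
        (fun p => nuH P p) ?_ ?_ ?_ (hC0 y (by omega) hzy) T'' hT''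
      · intro p _ a a' b b' h1 h2
        unfold QH
        have h3 := hv_congr (FF P) (t := (a, b)) (t' := (a', b')) h1 h2
        constructor
        · intro h4
          have := dvd_sub h4 h3
          rwa [sub_sub_cancel] at this
        · intro h4
          have := dvd_add h3 h4
          rwa [sub_add_cancel] at this
      · intro p _ _
        rfl
      · intro p hp
        obtain ⟨⟨hz, -⟩, hpp⟩ := mem_PS.1 hp
        exact nuH_le g hpp hz hc hc1
    have h1 := cntQ (a := a) g hc hcz hC hzy hsq hs hv' hu (hsvu.trans (by omega)) hcop T'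
      (fun t ht => by
        obtain ⟨h2, h3, h4⟩ := hT t ht
        obtain ⟨⟨h5, h6⟩, h7, -⟩ := mem_TH.1 (hT' ht)
        have hXc : (X' : ℤ) = 2 * X + 1 := by
          rw [hX']
          push_cast
          ring
        exact ⟨by omega, by omega, by omega, by omega, h7, h2, h3, h4⟩) hst
    have hgs := gw_nonneg (c := c) (by omega) hs
    have hgv := gw_nonneg (c := c) (by omega) hv'
    have hl : 0 < Real.log y := Real.log_pos (by exact_mod_cast (by omega : 1 < y))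
    obtain ⟨R, hR⟩ : ∃ R : ℝ, R = ((1 / 2) ^ s.primeFactors.card * gw 1 c s) *
      ((c : ℝ) ^ v.primeFactors.card * (gw 1 c v / v)) *
      ((c : ℝ) ^ u.primeFactors.card / u) / (Real.log y) ^ (Fintype.card J) := ⟨_, rfl⟩
    have hR0 : 0 ≤ R := by
      rw [hR]
      positivity
    have h2 : (T'.card : ℝ) ≤ C * (X' : ℝ) ^ 2 * R := by
      refine h1.trans (le_of_eq ?_)
      rw [hR]
      ring
    have hXr : (1 : ℝ) ≤ X := by exact_mod_cast (by omega : 1 ≤ X)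
    have h3 : (X' : ℝ) ^ 2 ≤ 9 * (X : ℝ) ^ 2 := by
      have h4 : (X' : ℝ) ≤ 3 * X := by
        rw [hX']
        push_cast
        linarith
      calc (X' : ℝ) ^ 2 ≤ (3 * (X : ℝ)) ^ 2 := pow_le_pow_left₀ (Nat.cast_nonneg _) h4 2
        _ = _ := by ring
    have h4 : (1 : ℝ) ≤ (4 ^ E) ^ k' := one_le_pow₀ hE1
    have h5 : C * (X' : ℝ) ^ 2 ≤ 9 * C * (4 ^ E) ^ k' * (X : ℝ) ^ 2 := by
      calc C * (X' : ℝ) ^ 2 ≤ C * (9 * (X : ℝ) ^ 2) := mul_le_mul_of_nonneg_left h3 hC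
        _ = 9 * C * 1 * (X : ℝ) ^ 2 := by ring
        _ ≤ 9 * C * (4 ^ E) ^ k' * (X : ℝ) ^ 2 := by gcongr
    refine h2.trans ((mul_le_mul_of_nonneg_right h5 hR0).trans (le_of_eq ?_))
    rw [hR]
    ring

end Pool.Agent.L0h55.TV
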